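import Pool.Agent.P8H52.FQ.Cob

/-! # Project FQ: package BR -/

set_option autoImplicit false

namespace Pool.Agent.P8H52.FQ

open Pool.Agent.P8H47.FP
open Pool.Agent.P8H63.FP (mem_Fx st_open app_mul mem_st)

section

variable {F K : Type} [Field F] [Field K] [Algebra F K]

theorem exists_ch {x : F} {a : K} (ha : a ^ 2 = algebraMap F K x) :
    ∃ A : (K ≃ₐ[F] K) → ZMod 2, Ch a A := by
  classical
  refine ⟨fun σ => if σ a = a then 0 else 1, fun σ => ?_⟩
  have h : σ a = a ∨ σ a = -a := by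
    apply sq_cases
    rw [← map_pow, ha, AlgEquiv.commutes]
  by_cases h1 : σ a = a
  · simp [h1]
  · simp only [if_neg h1]
    rw [if_neg (by decide)]
    exact h.resolve_left h1

theorem Ch.lc [IsGalois F K] {a : K} {A : (K ≃ₐ[F] K) → ZMod 2} (h : Ch a A) (h2 : (2 : K) ≠ 0)
    (ha : a ≠ 0) : IsLocallyConstant A :=
  lc_of_open (MulAction.stabilizer (K ≃ₐ[F] K) a) (st_open a) A fun g v hv => by
    rw [h.mul h2 ha, (h.zero_iff h2 ha v).2 hv, add_zero]

theorem Ch.neg {a : K} {A : (K ≃ₐ[F] K) → ZMod 2} (h : Ch a A) : Ch (-a) A := by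
  intro σ
  rw [map_neg, h σ]
  split_ifs <;> rfl

theorem Ch.eq {a : K} {A B : (K ≃ₐ[F] K) → ZMod 2} (h : Ch a A) (h' : Ch a B) (h2 : (2 : K) ≠ 0)
    (ha : a ≠ 0) (σ : K ≃ₐ[F] K) : A σ = B σ :=
  h.uniq h2 ha (h'.sgn σ)

/-- The coboundaries. -/
def Cob (G : Type) [Group G] [TopologicalSpace G] : AddSubgroup (G → G → ZMod 2) where
  carrier := {f | ∃ φ : G → ZMod 2, IsLocallyConstant φ ∧
    ∀ σ τ, φ (σ * τ) = φ σ + φ τ + f σ τ}
  add_mem' := by
    rintro f g ⟨φ, hφ, h⟩ ⟨ψ, hψ, h'⟩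
    refine ⟨φ + ψ, hφ.add hψ, fun σ τ => ?_⟩
    simp only [Pi.add_apply]
    rw [h, h']
    ring
  zero_mem' := ⟨0, IsLocallyConstant.const 0, fun σ τ => by simp⟩
  neg_mem' := by
    rintro f ⟨φ, hφ, h⟩
    refine ⟨-φ, hφ.neg, fun σ τ => ?_⟩
    simp only [Pi.neg_apply]
    rw [h]
    ring

end

theorem br : S_BR := by
  intro hcob F K _ _ _ _ h2 hsq
  have hr : ∀ x : Fˣ, ∃ a : K, a ^ 2 = algebraMap F K x := fun x => hsq _
  choose r hr using hr
  have hA : ∀ x : Fˣ, ∃ A : (K ≃ₐ[F] K) → ZMod 2, Ch (r x) A := fun x => exists_ch (hr x)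
  choose X hX using hA
  have hr0 : ∀ x : Fˣ, r x ≠ 0 := by
    intro x h
    have h1 := hr x
    rw [h] at h1
    have h3 : algebraMap F K x ≠ 0 := by rw [Ne, map_eq_zero]; exact x.ne_zero
    apply h3; rw [← h1]; simp
  have hmul : ∀ (x y : Fˣ) σ, X (x * y) σ = X x σ + X y σ := by
    intro x y σ
    have h1 : r (x * y) ^ 2 = (r x * r y) ^ 2 := by
      rw [hr, mul_pow, hr, hr]; simp
    have h3 : r x * r y ≠ 0 := mul_ne_zero (hr0 x) (hr0 y)
    have h4 := ch_mul (hX x) (hX y)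
    rcases sq_cases h1 with h | h
    · have h5 := hX (x * y)
      rw [h] at h5
      exact h5.eq h4 h2 h3 σ
    · have h5 := (hX (x * y)).neg
      rw [h, neg_neg] at h5
      exact h5.eq h4 h2 h3 σ
  let C := Cob (K ≃ₐ[F] K)
  refine ⟨{
    Q := ((K ≃ₐ[F] K) → (K ≃ₐ[F] K) → ZMod 2) ⧸ C
    two := ?_
    q := fun x y => QuotientAddGroup.mk (fun σ τ => X y σ * X x τ)
    left := ?_
    symm := ?_
    norm := ?_ }⟩
  · intro a
    induction a using QuotientAddGroup.induction_on with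
    | H f =>
      rw [← QuotientAddGroup.mk_add]
      have : f + f = 0 := by
        funext σ τ
        exact CharTwo.add_self_eq_zero _
      rw [this]; rfl
  · intro a b x
    rw [← QuotientAddGroup.mk_add]
    congr 1
    funext σ τ
    simp only [Pi.add_apply]
    rw [hmul]; ring
  · intro a b
    rw [QuotientAddGroup.eq]
    refine ⟨fun σ => X a σ * X b σ, ?_, fun σ τ => ?_⟩
    · exact ((hX a).lc h2 (hr0 a)).mul ((hX b).lc h2 (hr0 b))
    · simp only [Pi.add_apply, Pi.neg_apply]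
      rw [(hX a).mul h2 (hr0 a), (hX b).mul h2 (hr0 b)]
      have h5 : ∀ p q r s : ZMod 2, (p + q) * (r + s) = p * r + q * s + (-(r * q) + p * s) := by
        decide
      exact h5 _ _ _ _
  · intro x y
    rw [hcob F K h2 hsq x y (r x) (r y) (hr x) (hr y) (X x) (X y) (hX x) (hX y)]
    rw [QuotientAddGroup.eq_zero_iff]
    rfl

end Pool.Agent.P8H52.FQ
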