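import Pool.Agent.P8H47.FP.Stm6
import Pool.Agent.P8H63.FP.Locn

/-! # Project FQ: packages COB, BR -/

set_option autoImplicit false

namespace Pool.Agent.P8H52.FQ

open Pool.Agent.P8H47.FP
open Pool.Agent.P8H63.FP (mem_Fx st_open app_mul mem_st)

theorem z2 (x : ZMod 2) : x = 0 ∨ x = 1 := by
  revert x; decide

/-- the sign -/
def sg (x : ZMod 2) : ℤˣ := if x = 0 then 1 else -1

theorem sg_add (x y : ZMod 2) : sg (x + y) = sg x * sg y := by
  revert x y; decide

theorem sg_zero : sg 0 = 1 := rfl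

section

variable {F K : Type} [Field F] [Field K] [Algebra F K]

/-- `A` is the character of `a`. -/
def Ch (a : K) (A : (K ≃ₐ[F] K) → ZMod 2) : Prop := ∀ σ, σ a = if A σ = 0 then a else - a

theorem neg_ne (h2 : (2 : K) ≠ 0) {a : K} (ha : a ≠ 0) : a ≠ -a := by
  intro h
  have h1 : 2 * a = 0 := by linear_combination h
  rcases mul_eq_zero.1 h1 with h3 | h3
  · exact h2 h3
  · exact ha h3

theorem Ch.zero_iff {a : K} {A : (K ≃ₐ[F] K) → ZMod 2} (h : Ch a A) (h2 : (2 : K) ≠ 0)
    (ha : a ≠ 0) (σ : K ≃ₐ[F] K) : A σ = 0 ↔ σ a = a := by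
  rw [h σ]
  constructor
  · intro h0; rw [if_pos h0]
  · intro h1
    by_contra h0
    rw [if_neg h0] at h1
    exact neg_ne h2 ha h1.symm

theorem Ch.sgn {a : K} {A : (K ≃ₐ[F] K) → ZMod 2} (h : Ch a A) (σ : K ≃ₐ[F] K) :
    σ a = (((sg (A σ) : ℤˣ) : ℤ) : K) * a := by
  rw [h σ]
  unfold sg
  split_ifs <;> simp

theorem Ch.uniq {a : K} {A : (K ≃ₐ[F] K) → ZMod 2} (h : Ch a A) (h2 : (2 : K) ≠ 0)
    (ha : a ≠ 0) {σ : K ≃ₐ[F] K} {c : ZMod 2} (hc : σ a = (((sg c : ℤˣ) : ℤ) : K) * a) :
    A σ = c := by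
  rcases z2 c with rfl | rfl
  · rw [h.zero_iff h2 ha, hc]; simp [sg]
  · rcases z2 (A σ) with h0 | h0
    · rw [h.zero_iff h2 ha, hc] at h0
      exfalso
      apply neg_ne h2 ha
      simp [sg] at h0
      exact h0.symm
    · exact h0

theorem map_sgn (σ : K ≃ₐ[F] K) (a : ℤˣ) : σ ((a : ℤ) : K) = ((a : ℤ) : K) := map_intCast σ _

theorem Ch.mul {a : K} {A : (K ≃ₐ[F] K) → ZMod 2} (h : Ch a A) (h2 : (2 : K) ≠ 0)
    (ha : a ≠ 0) (σ τ : K ≃ₐ[F] K) : A (σ * τ) = A σ + A τ := by
  apply h.uniq h2 ha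
  rw [app_mul, h.sgn τ, map_mul, map_sgn, h.sgn σ, sg_add]
  push_cast
  ring

theorem ch_mul {a a' : K} {A A' : (K ≃ₐ[F] K) → ZMod 2} (h : Ch a A) (h' : Ch a' A') :
    Ch (a * a') (fun σ => A σ + A' σ) := by
  intro σ
  rw [map_mul, h.sgn, h'.sgn]
  have : (if A σ + A' σ = 0 then a * a' else -(a * a')) =
      (((sg (A σ + A' σ) : ℤˣ) : ℤ) : K) * (a * a') := by
    unfold sg
    split_ifs <;> simp
  rw [this, sg_add]
  push_cast
  ring

/-- A function invariant under right translations by an open subgroup is locally constant. -/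
theorem lc_of_open {G A : Type} [Group G] [TopologicalSpace G] [IsTopologicalGroup G]
    (V : Subgroup G) (hV : IsOpen (V : Set G)) (f : G → A) (hf : ∀ g, ∀ v ∈ V, f (g * v) = f g) :
    IsLocallyConstant f := by
  rw [IsLocallyConstant.iff_exists_open]
  intro g
  refine ⟨(fun x => g * x) '' (V : Set G), (Homeomorph.mulLeft g).isOpenMap _ hV,
    ⟨1, V.one_mem, mul_one g⟩, ?_⟩
  rintro _ ⟨v, hv, rfl⟩
  exact hf g v hv

theorem sq_cases {a b : K} (h : a ^ 2 = b ^ 2) : a = b ∨ a = -b := sq_eq_sq_iff_eq_or_eq_neg.1 h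

end

theorem cob : S_COB := by
  intro hlocn F K _ _ _ _ h2 hsq x y a b ha hb A B hA hB
  have hx0 : algebraMap F K x ≠ 0 := by
    rw [Ne, map_eq_zero]; exact x.ne_zero
  have hy0 : algebraMap F K y ≠ 0 := by
    rw [Ne, map_eq_zero]; exact y.ne_zero
  have ha0 : a ≠ 0 := by
    rintro rfl
    apply hx0; rw [← ha]; simp
  have hb0 : b ≠ 0 := by
    rintro rfl
    apply hy0; rw [← hb]; simp
  have cA : Ch a A := hA
  have cB : Ch b B := hB
  have mA := cA.mul h2 ha0
  have mB := cB.mul h2 hb0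
  constructor
  · rintro ⟨u, v, huv⟩
    set κ : K := algebraMap F K u + algebraMap F K v * a with hκ
    set κ' : K := algebraMap F K u - algebraMap F K v * a with hκ'
    have hkk : κ * κ' = b ^ 2 := by
      rw [hb, huv, map_sub, map_mul, map_pow, map_pow, ← ha]
      ring
    have hκ0 : κ ≠ 0 := by
      intro h
      rw [h, zero_mul] at hkk
      exact hb0 (pow_eq_zero_iff (two_ne_zero) |>.1 hkk.symm)
    obtain ⟨l, hl⟩ := hsq κ
    have hl0 : l ≠ 0 := by
      rintro rfl
      apply hκ0; rw [← hl]; simp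
    have hl' : (b / l) ^ 2 = κ' := by
      rw [div_pow, hl, ← hkk]
      field_simp
    -- the value of `σ l`
    let tg : (K ≃ₐ[F] K) → K := fun σ => if A σ = 0 then l else b / l
    have htg0 : ∀ σ, tg σ ≠ 0 := fun σ => by
      simp only [tg]
      split_ifs
      · exact hl0
      · exact div_ne_zero hb0 hl0
    have htg : ∀ σ : K ≃ₐ[F] K, σ l = tg σ ∨ σ l = - tg σ := by
      intro σ
      apply sq_cases
      rw [← map_pow, hl]
      simp only [tg]
      have h1 : σ κ = algebraMap F K u + algebraMap F K v * σ a := by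
        rw [hκ, map_add, map_mul, AlgEquiv.commutes, AlgEquiv.commutes]
      rw [h1, hA σ]
      split_ifs
      · rw [hl]
      · rw [hl', hκ']; ring
    classical
    let φ : (K ≃ₐ[F] K) → ZMod 2 := fun σ => if σ l = tg σ then 0 else 1
    have hφ : ∀ σ : K ≃ₐ[F] K, σ l = (((sg (φ σ) : ℤˣ) : ℤ) : K) * tg σ := by
      intro σ
      simp only [φ]
      split_ifs with h
      · rw [h]; simp [sg]
      · rw [(htg σ).resolve_left h]; simp [sg]
    have hφu : ∀ (σ : K ≃ₐ[F] K) (c : ZMod 2), σ l = (((sg c : ℤˣ) : ℤ) : K) * tg σ → φ σ = c := by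
      intro σ c hc
      have h1 := hφ σ
      rw [hc] at h1
      rcases z2 c with rfl | rfl <;> rcases z2 (φ σ) with h0 | h0
      · exact h0
      · rw [h0] at h1
        exfalso
        simp [sg] at h1
        exact neg_ne h2 (htg0 σ) h1
      · rw [h0] at h1
        exfalso
        simp [sg] at h1
        exact neg_ne h2 (htg0 σ) h1.symm
      · exact h0
    have hsg2 : ∀ c : ZMod 2, (((sg c : ℤˣ) : ℤ) : K) * (((sg c : ℤˣ) : ℤ) : K) = 1 := by
      intro c
      rcases z2 c with rfl | rfl <;> simp [sg]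
    have hsg0 : ∀ c : ZMod 2, (((sg c : ℤˣ) : ℤ) : K) ≠ 0 := by
      intro c
      rcases z2 c with rfl | rfl <;> simp [sg]
    have hcoc : ∀ σ τ, φ (σ * τ) = φ σ + φ τ + B σ * A τ := by
      intro σ τ
      apply hφu
      rw [app_mul, hφ τ, map_mul, map_sgn]
      rcases z2 (A τ) with hτ | hτ
      · have e1 : tg τ = l := by simp only [tg]; rw [if_pos hτ]
        have e2 : tg (σ * τ) = tg σ := by simp only [tg]; rw [mA, hτ, add_zero]
        rw [e1, e2, hφ σ, hτ, mul_zero, add_zero, sg_add]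
        push_cast
        ring
      · have e1 : tg τ = b / l := by simp only [tg]; rw [if_neg (by rw [hτ]; decide)]
        rw [e1, hτ, mul_one, map_div₀, cB.sgn σ, hφ σ, sg_add, sg_add]
        have hs := hsg2 (φ σ)
        have hs0 := hsg0 (φ σ)
        have e2 : (((sg (φ σ) : ℤˣ) : ℤ) : K)⁻¹ = (((sg (φ σ) : ℤˣ) : ℤ) : K) :=
          inv_eq_of_mul_eq_one_left hs
        have e3 : b / tg σ = tg (σ * τ) := by
          simp only [tg]
          rw [mA, hτ]
          rcases z2 (A σ) with hσ | hσ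
          · rw [hσ, if_pos rfl, zero_add, if_neg (by decide)]
          · rw [hσ, if_neg (by decide), if_pos (by decide)]
            field_simp
        rw [← e3, mul_div_assoc, div_mul_eq_div_div, div_eq_mul_inv b, e2]
        push_cast
        ring
    refine ⟨φ, ?_, hcoc⟩
    refine lc_of_open (MulAction.stabilizer (K ≃ₐ[F] K) a ⊓ MulAction.stabilizer (K ≃ₐ[F] K) l)
      ((st_open a).inter (st_open l)) φ fun g v hv => ?_
    have hv1 : v a = a := hv.1
    have hv2 : v l = l := hv.2
    have hv3 : A v = 0 := (cA.zero_iff h2 ha0 v).2 hv1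
    have hv4 : φ v = 0 := by
      apply hφu
      simp only [tg]
      rw [if_pos hv3, hv2]; simp [sg]
    rw [hcoc, hv3, hv4]; ring
  · rintro ⟨φ, hφ, hcoc⟩
    have h2F : (2 : F) ≠ 0 := by
      intro h
      apply h2
      have h3 := congrArg (algebraMap F K) h
      rw [map_zero, map_ofNat] at h3
      exact h3
    by_cases hall : ∀ σ : K ≃ₐ[F] K, σ a = a
    · obtain ⟨c, hc⟩ : a ∈ Set.range (algebraMap F K) := by
        rw [InfiniteGalois.mem_range_algebraMap_iff_fixed]
        exact hall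
      have hc0 : c ≠ 0 := by
        rintro rfl
        apply ha0; rw [← hc, map_zero]
      have hxc : (x : F) = c ^ 2 := by
        apply (algebraMap F K).injective
        rw [← ha, ← hc, map_pow]
      refine ⟨((y : F) + 1) / 2, ((y : F) - 1) / (2 * c), ?_⟩
      rw [hxc]
      field_simp
      ring
    · push Not at hall
      obtain ⟨τ, hτ⟩ := hall
      have hAτ : A τ = 1 := by
        rcases z2 (A τ) with h | h
        · exact absurd ((cA.zero_iff h2 ha0 τ).1 h) hτ
        · exact h
      have hτa : τ a = - a := by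
        rw [hA τ, if_neg (by rw [hAτ]; decide)]
      have hA1 : A 1 = 0 := (cA.zero_iff h2 ha0 1).2 rfl
      have hφ1 : φ 1 = 0 := by
        have h := hcoc 1 1
        rw [mul_one, hA1, mul_zero, add_zero] at h
        have h3 : φ 1 + φ 1 = 0 := CharTwo.add_self_eq_zero _
        rw [h, h3]
      have hst : ∀ g, g ∈ (⊤ : Subgroup (K ≃ₐ[F] K)) ⊓ MulAction.stabilizer (K ≃ₐ[F] K) a →
          A g = 0 := fun g hg => (cA.zero_iff h2 ha0 g).2 hg.2
      have key := hlocn F K h2 ⊤ isClosed_univ a τ ?_ ha0 (Subgroup.mem_top τ) hτa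
        (fun σ => sg (B σ)) (fun σ => sg (φ σ)) ?_ ?_ ?_ ?_ b hb0 ?_
      · obtain ⟨u, hu, v, hv, huv⟩ := key
        have hrange : ∀ z ∈ Fx (⊤ : Subgroup (K ≃ₐ[F] K)), z ∈ Set.range (algebraMap F K) := by
          intro z hz
          rw [InfiniteGalois.mem_range_algebraMap_iff_fixed]
          intro f
          exact (mem_Fx _ z).1 hz f (Subgroup.mem_top f)
        obtain ⟨u', rfl⟩ := hrange u hu
        obtain ⟨v', rfl⟩ := hrange v hv
        refine ⟨u', v', ?_⟩
        apply (algebraMap F K).injective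
        rw [map_sub, map_mul, map_pow, map_pow, ← ha, ← hb]
        exact huv
      · rw [mem_Fx]
        intro h _
        rw [ha, AlgEquiv.commutes]
      · constructor
        · intro g _ h _
          show sg (B (g * h)) = sg (B g) * sg (B h)
          rw [mB, sg_add]
        · refine ⟨MulAction.stabilizer (K ≃ₐ[F] K) b, st_open b, fun v hv _ => ?_⟩
          show sg (B v) = 1
          rw [(cB.zero_iff h2 hb0 v).2 hv]; rfl
      · constructor
        · intro g hg h hh
          show sg (φ (g * h)) = sg (φ g) * sg (φ h)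
          rw [hcoc, hst h hh, mul_zero, add_zero, sg_add]
        · have hV : ∃ V : Subgroup (K ≃ₐ[F] K), (V : Set (K ≃ₐ[F] K)) = {g | φ g = 0 ∧ g a = a} := by
            refine ⟨⟨⟨⟨{g | φ g = 0 ∧ g a = a}, ?_⟩, ?_⟩, ?_⟩, rfl⟩
            · rintro g h ⟨hg, hg'⟩ ⟨hh, hh'⟩
              refine ⟨?_, ?_⟩
              · rw [hcoc, hg, hh, (cA.zero_iff h2 ha0 h).2 hh']; ring
              · rw [app_mul, hh', hg']
            · exact ⟨hφ1, rfl⟩
            · rintro g ⟨hg, hg'⟩
              have hg3 : g⁻¹ a = a := by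
                have h3 : g⁻¹ (g a) = a := by rw [← app_mul, inv_mul_cancel]; rfl
                rwa [hg'] at h3
              refine ⟨?_, hg3⟩
              have h3 := hcoc g g⁻¹
              rw [mul_inv_cancel, hφ1, hg, (cA.zero_iff h2 ha0 _).2 hg3, mul_zero, add_zero,
                zero_add] at h3
              exact h3.symm
          obtain ⟨V, hV⟩ := hV
          refine ⟨V, ?_, fun v hv _ => ?_⟩
          · rw [hV]
            exact (hφ.isOpen_fiber 0).inter (st_open a)
          · have hv' : v ∈ (V : Set (K ≃ₐ[F] K)) := hv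
            rw [hV] at hv'
            show sg (φ v) = 1
            rw [hv'.1]; rfl
      · intro h _ hh
        show sg (B h) = sg (φ h) * sg (φ (τ * h * τ⁻¹))
        have hAh : A h = 0 := (cA.zero_iff h2 ha0 h).2 hh
        have hAi : A τ⁻¹ = 1 := by
          have h3 := mA τ τ⁻¹
          rw [mul_inv_cancel, hA1, hAτ] at h3
          generalize A τ⁻¹ = t at h3
          revert t; decide
        have h5 := hcoc τ τ⁻¹
        rw [mul_inv_cancel, hφ1, hAi, mul_one] at h5
        rw [← sg_add, hcoc, hcoc τ h, mB, hAh, hAi]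
        congr 1
        generalize φ τ⁻¹ = p at *
        generalize φ τ = q at *
        generalize φ h = r at *
        generalize B τ = s at *
        generalize B h = t at *
        clear hcoc hφ hst
        revert h5
        revert p q r s t
        decide
      · show sg (B τ) = sg (φ (τ * τ))
        rw [hcoc, hAτ, mul_one, CharTwo.add_self_eq_zero, zero_add]
      · intro h _
        exact cB.sgn h

end Pool.Agent.P8H52.FQ
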